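import Pool.Agent.N979.CP.Stm
import Pool.Agent.N526.CP.GDc

/-!
# CPN2/GX: closed form of the anisotropic condition
-/

set_option autoImplicit false

open MeasureTheory Metric Set

namespace Pool.Agent.N322.CPGX

open Pool.Agent.H241R3.FV Pool.Agent.N526.CP Pool.Agent.N979.CP Pool.Agent.N526.CP.GDc

variable {d : ℕ}

/-- Cauchy-Schwarz -/
theorem cs (hp : IsProbabilityMeasure (sg (d + 1))) {w F : Sph (d + 1) → ℝ} (hw : Continuous w)
    (hw0 : ∀ θ, 0 ≤ w θ) (hF : Continuous F) (hF0 : ∀ θ, 0 < F θ) :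
    (∫ θ, w θ * (F θ)⁻¹ ∂(sg (d + 1))) ^ 2 ≤
      (∫ θ, w θ * F θ ^ (d + 1) ∂(sg (d + 1))) * ∫ θ, w θ * (F θ)⁻¹ ^ (d + 3) ∂(sg (d + 1)) := by
  have hi : Continuous fun θ => (F θ)⁻¹ := hF.inv₀ fun θ => (hF0 θ).ne'
  have i1 : Integrable (fun θ => w θ * (F θ)⁻¹) (sg (d + 1)) := integ hp (hw.mul hi)
  have i2 : Integrable (fun θ => w θ * F θ ^ (d + 1)) (sg (d + 1)) :=
    integ hp (hw.mul (hF.pow (d + 1)))
  have i3 : Integrable (fun θ => w θ * (F θ)⁻¹ ^ (d + 3)) (sg (d + 1)) :=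
    integ hp (hw.mul (hi.pow (d + 3)))
  have key : ∀ t : ℝ, 0 ≤ (∫ θ, w θ * F θ ^ (d + 1) ∂(sg (d + 1))) * (t * t) +
      (-2 * ∫ θ, w θ * (F θ)⁻¹ ∂(sg (d + 1))) * t +
      ∫ θ, w θ * (F θ)⁻¹ ^ (d + 3) ∂(sg (d + 1)) := by
    intro t
    have h1 : 0 ≤ ∫ θ, w θ * (F θ ^ (d + 1) * (t - (F θ)⁻¹ ^ (d + 2)) ^ 2) ∂(sg (d + 1)) :=
      integral_nonneg fun θ => by
        have h3 := hw0 θ
        have h4 := hF0 θ
        positivity
    have h2 : ∀ θ, w θ * (F θ ^ (d + 1) * (t - (F θ)⁻¹ ^ (d + 2)) ^ 2) =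
        w θ * F θ ^ (d + 1) * (t * t) + -2 * (w θ * (F θ)⁻¹) * t + w θ * (F θ)⁻¹ ^ (d + 3) := by
      intro θ
      have hF := (hF0 θ).ne'
      have e1 : F θ ^ (d + 1) * (F θ)⁻¹ ^ (d + 1) = 1 := by
        rw [← mul_pow, mul_inv_cancel₀ hF, one_pow]
      have e2 : (F θ)⁻¹ ^ (d + 2) = (F θ)⁻¹ ^ (d + 1) * (F θ)⁻¹ := pow_succ _ _
      have e3 : (F θ)⁻¹ ^ (d + 3) = (F θ)⁻¹ ^ (d + 1) * (F θ)⁻¹ * (F θ)⁻¹ := by
        rw [pow_succ, pow_succ]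
      rw [e2, e3]
      linear_combination (w θ) * (-2 * (F θ)⁻¹ * t +
        (F θ)⁻¹ ^ (d + 1) * (F θ)⁻¹ * (F θ)⁻¹) * e1
    simp only [h2] at h1
    have j1 : Integrable (fun θ => -2 * (w θ * (F θ)⁻¹) * t) (sg (d + 1)) :=
      (i1.const_mul _).mul_const _
    have j2 : Integrable (fun θ => w θ * F θ ^ (d + 1) * (t * t)) (sg (d + 1)) := i2.mul_const _
    have j3 : Integrable (fun θ => w θ * F θ ^ (d + 1) * (t * t) + -2 * (w θ * (F θ)⁻¹) * t)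
      (sg (d + 1)) := j2.add j1
    rw [integral_add j3 i3, integral_add j2 j1, integral_mul_const,
      integral_mul_const, integral_const_mul] at h1
    exact h1
  have h3 := discrim_le_zero key
  rw [discrim] at h3
  nlinarith

theorem main (hS : S_SPH) (hG : S_GRAM) : S_GX := by
  intro d hd s hs0 hs1 hyp
  obtain ⟨hp, -, -⟩ := hS d hd
  have hd1 : (1 : ℝ) ≤ d := by exact_mod_cast hd
  have hn : (0 : ℝ) < d + 1 := by linarith
  have hss : 0 < 1 - s ^ 2 := by nlinarith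
  have hc : 0 < √(1 - s ^ 2) := Real.sqrt_pos.2 hss
  have hc2 : √(1 - s ^ 2) ^ 2 = 1 - s ^ 2 := Real.sq_sqrt hss.le
  obtain ⟨F, hFd⟩ : ∃ F : Sph (d + 1) → ℝ,
      F = fun θ : Sph (d + 1) => √(1 - (s * (θ : E (d + 1)) 0) ^ 2) := ⟨_, rfl⟩
  have hFθ : ∀ θ : Sph (d + 1), √(1 - (s * (θ : E (d + 1)) 0) ^ 2) = F θ := fun θ => by rw [hFd]
  have hF : Continuous F := by
    have h := cont_pow (d := d) s 1
    simp only [pow_one] at h
    rw [hFd]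
    exact h
  have hF0 : ∀ θ, 0 < F θ := fun θ => by
    rw [← hFθ]
    exact Real.sqrt_pos.2 (by
      have := u_lt hs0 hs1 θ
      linarith)
  have hi : Continuous fun θ => (F θ)⁻¹ := hF.inv₀ fun θ => (hF0 θ).ne'
  have ci : ∀ i : Fin (d + 1), Continuous fun θ : Sph (d + 1) => (θ : E (d + 1)) i := fun i => by
    have h : Continuous fun x : E (d + 1) => x i := by fun_prop
    exact h.comp continuous_subtype_val
  -- the integrals of degree `-(d+3)`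
  have hX : ‖(s • EuclideanSpace.single 0 1 : E (d + 1))‖ = s := by
    rw [norm_smul, PiLp.norm_single, norm_one, mul_one, Real.norm_eq_abs,
      abs_of_nonneg hs0]
  obtain ⟨-, hG2⟩ := hG d hd (s • EuclideanSpace.single 0 1) (by rw [hX]; exact hs1)
  rw [hX] at hG2
  have hipX : ∀ θ : Sph (d + 1), ip (s • EuclideanSpace.single 0 1 : E (d + 1)) θ =
      s * (θ : E (d + 1)) 0 := by
    intro θ
    rw [ip, real_inner_smul_left, EuclideanSpace.inner_single_left]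
    simp
  have hipi : ∀ (i : Fin (d + 1)) (θ : Sph (d + 1)),
      ip (EuclideanSpace.single i 1 : E (d + 1)) θ = (θ : E (d + 1)) i := by
    intro i θ
    rw [ip, EuclideanSpace.inner_single_left]
    simp
  have hB : ∀ i : Fin (d + 1),
      ∫ θ : Sph (d + 1), (θ : E (d + 1)) i ^ 2 * (F θ)⁻¹ ^ (d + 3) ∂(sg (d + 1)) =
        (√(1 - s ^ 2))⁻¹ / (d + 1) * (1 + (if i = 0 then s ^ 2 else 0) / (1 - s ^ 2)) := by
    intro i
    have h1 := hG2 (EuclideanSpace.single i 1) (EuclideanSpace.single i 1)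
    simp only [hipX, hipi, hFθ] at h1
    rw [real_inner_smul_left, EuclideanSpace.inner_single_left,
      EuclideanSpace.inner_single_left] at h1
    have h2 : ∫ θ : Sph (d + 1), (θ : E (d + 1)) i ^ 2 * (F θ)⁻¹ ^ (d + 3) ∂(sg (d + 1)) =
        ∫ θ : Sph (d + 1), (F θ)⁻¹ ^ (d + 3) * ((θ : E (d + 1)) i * (θ : E (d + 1)) i)
          ∂(sg (d + 1)) := by
      refine integral_congr_ae (Filter.Eventually.of_forall fun θ => ?_)
      ring
    rw [h2, h1]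
    by_cases h0 : i = 0
    · subst h0
      simp
      left
      ring
    · have h0' : (0 : Fin (d + 1)) ≠ i := fun h => h0 h.symm
      simp [h0, h0']
  have hBr : ∫ θ : Sph (d + 1), (θ : E (d + 1)) 0 ^ 2 * (F θ)⁻¹ ^ (d + 3) ∂(sg (d + 1)) =
      1 / ((d + 1) * √(1 - s ^ 2) ^ 3) := by
    have h1 : 1 + s ^ 2 / (1 - s ^ 2) = (√(1 - s ^ 2) ^ 2)⁻¹ := by
      rw [hc2]
      field_simp
      ring
    rw [hB 0, if_pos rfl, h1]
    field_simp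
  have hsum : ∀ θ : Sph (d + 1), 1 - (θ : E (d + 1)) 0 ^ 2 =
      ∑ i : Fin d, (θ : E (d + 1)) i.succ ^ 2 := by
    intro θ
    have hθ : ‖(θ : E (d + 1))‖ = 1 := by simp
    have h1 := EuclideanSpace.real_norm_sq_eq (θ : E (d + 1))
    rw [hθ, one_pow, Fin.sum_univ_succ] at h1
    linarith
  have hBt : ∫ θ : Sph (d + 1), (1 - (θ : E (d + 1)) 0 ^ 2) * (F θ)⁻¹ ^ (d + 3) ∂(sg (d + 1)) =
      d / ((d + 1) * √(1 - s ^ 2)) := by
    have h1 : ∀ θ : Sph (d + 1), (1 - (θ : E (d + 1)) 0 ^ 2) * (F θ)⁻¹ ^ (d + 3) =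
        ∑ i : Fin d, (θ : E (d + 1)) i.succ ^ 2 * (F θ)⁻¹ ^ (d + 3) := by
      intro θ
      rw [hsum, Finset.sum_mul]
    simp only [h1]
    rw [integral_finsetSum]
    · simp only [hB, if_neg (Fin.succ_ne_zero _)]
      rw [Finset.sum_const, Finset.card_univ, Fintype.card_fin, nsmul_eq_mul]
      field_simp
      ring
    · intro i _
      exact integ hp (((ci i.succ).pow 2).mul (hi.pow (d + 3)))
  -- Cauchy-Schwarz
  have hAr : Ar d s = ∫ θ : Sph (d + 1), (θ : E (d + 1)) 0 ^ 2 * F θ ^ (d + 1) ∂(sg (d + 1)) := by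
    simp only [Ar, hFθ]
  have hkr : kr d s = ∫ θ : Sph (d + 1), (θ : E (d + 1)) 0 ^ 2 * (F θ)⁻¹ ∂(sg (d + 1)) := by
    simp only [kr, hFθ]
  have hAt : d * At d s =
      ∫ θ : Sph (d + 1), (1 - (θ : E (d + 1)) 0 ^ 2) * F θ ^ (d + 1) ∂(sg (d + 1)) := by
    simp only [At, hFθ]
    field_simp
  have hkt : d * kt d s =
      ∫ θ : Sph (d + 1), (1 - (θ : E (d + 1)) 0 ^ 2) * (F θ)⁻¹ ∂(sg (d + 1)) := by
    simp only [kt, hFθ]
    field_simp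
  have hAr0 : 0 ≤ Ar d s := by
    rw [hAr]
    exact integral_nonneg fun θ => by
      have := hF0 θ
      positivity
  have hw0 : ∀ θ : Sph (d + 1), 0 ≤ 1 - (θ : E (d + 1)) 0 ^ 2 := fun θ => by
    have := sq_le θ
    linarith
  have hAt0 : 0 ≤ At d s := by
    have h1 : 0 ≤ d * At d s := by
      rw [hAt]
      exact integral_nonneg fun θ => mul_nonneg (hw0 θ) (pow_nonneg (hF0 θ).le _)
    exact nonneg_of_mul_nonneg_right h1 (by linarith)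
  have hr : (∫ θ : Sph (d + 1), (θ : E (d + 1)) 0 ^ 2 * (F θ)⁻¹ ∂(sg (d + 1))) ^ 2 ≤
      (∫ θ : Sph (d + 1), (θ : E (d + 1)) 0 ^ 2 * F θ ^ (d + 1) ∂(sg (d + 1))) *
        ∫ θ : Sph (d + 1), (θ : E (d + 1)) 0 ^ 2 * (F θ)⁻¹ ^ (d + 3) ∂(sg (d + 1)) :=
    cs hp ((ci 0).pow 2) (fun θ => sq_nonneg _) hF hF0
  have ht : (∫ θ : Sph (d + 1), (1 - (θ : E (d + 1)) 0 ^ 2) * (F θ)⁻¹ ∂(sg (d + 1))) ^ 2 ≤
      (∫ θ : Sph (d + 1), (1 - (θ : E (d + 1)) 0 ^ 2) * F θ ^ (d + 1) ∂(sg (d + 1))) *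
        ∫ θ : Sph (d + 1), (1 - (θ : E (d + 1)) 0 ^ 2) * (F θ)⁻¹ ^ (d + 3) ∂(sg (d + 1)) :=
    cs hp (continuous_const.sub ((ci 0).pow 2)) hw0 hF hF0
  rw [← hkr, ← hAr, hBr] at hr
  rw [← hkt, ← hAt, hBt] at ht
  have h1 : (d + 1) * √(1 - s ^ 2) ^ 3 * kr d s ^ 2 ≤ Ar d s := by
    rw [mul_one_div, le_div_iff₀ (by positivity)] at hr
    linarith
  have h2 : (d + 1) * √(1 - s ^ 2) * kt d s ^ 2 ≤ At d s := by
    rw [mul_div_assoc', le_div_iff₀ (by positivity)] at ht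
    have h3 : (d : ℝ) ^ 2 * ((d + 1) * √(1 - s ^ 2) * kt d s ^ 2) ≤ (d : ℝ) ^ 2 * At d s := by
      nlinarith
    exact le_of_mul_le_mul_left h3 (by positivity)
  -- conclusion
  have ha0 : Ar d s * ((d + 1) * √(1 - s ^ 2) ^ 3 * kr d s ^ 2 / Ar d s) ≤
      (d + 1) * √(1 - s ^ 2) ^ 3 * kr d s ^ 2 := by
    rcases eq_or_ne (Ar d s) 0 with h | h
    · rw [h, zero_mul]
      positivity
    · rw [mul_div_cancel₀ _ h]
  have hb0 : At d s * ((d + 1) * √(1 - s ^ 2) * kt d s ^ 2 / At d s) ≤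
      (d + 1) * √(1 - s ^ 2) * kt d s ^ 2 := by
    rcases eq_or_ne (At d s) 0 with h | h
    · rw [h, zero_mul]
      positivity
    · rw [mul_div_cancel₀ _ h]
  have ha1 : (d + 1) * √(1 - s ^ 2) ^ 3 * kr d s ^ 2 / Ar d s ≤ 1 := div_le_one_of_le₀ h1 hAr0
  have hb1 : (d + 1) * √(1 - s ^ 2) * kt d s ^ 2 / At d s ≤ 1 := div_le_one_of_le₀ h2 hAt0
  generalize (d + 1) * √(1 - s ^ 2) ^ 3 * kr d s ^ 2 / Ar d s = a at hyp ha0 ha1
  generalize (d + 1) * √(1 - s ^ 2) * kt d s ^ 2 / At d s = b at hyp hb0 hb1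
  have hσ : 0 < (a + d * b - d) / (d + 1) := div_pos (by linarith) hn
  have hσ' : (a + d * b - d) / (d + 1) * (d + 1) = a + d * b - d := div_mul_cancel₀ _ hn.ne'
  generalize (a + d * b - d) / (d + 1) = σ at hσ hσ'
  refine ⟨1 - a + σ, 1 - b + σ, by linarith, by linarith, ?_, ?_, ?_⟩
  · linear_combination hσ'
  · refine le_trans ?_ ha0
    nlinarith [mul_nonneg hAr0 hσ.le]
  · refine le_trans ?_ hb0
    nlinarith [mul_nonneg hAt0 hσ.le]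

end Pool.Agent.N322.CPGX
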