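import Mathlib
import Pool.Agent.N988.EA.Stm

/-!
# The Edwards-Anderson model on hierarchical lattices: `E tanh² K` (`S_T`, `S_T1`)
-/

open MeasureTheory Set
open scoped ENNReal

namespace Pool.Agent.N322.EA

open Pool.Agent.N988.EA

/-! ### Calculus -/

theorem tanh_eq (x : ℝ) :
    Real.tanh x = (Real.exp x * Real.exp x - 1) / (Real.exp x * Real.exp x + 1) := by
  have h1 : 0 < Real.exp x := Real.exp_pos x
  rw [Real.tanh_eq_sinh_div_cosh, Real.sinh_eq, Real.cosh_eq, Real.exp_neg]
  have h2 : (Real.exp x - (Real.exp x)⁻¹) / 2 =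
      (Real.exp x * Real.exp x - 1) * (1 / (2 * Real.exp x)) := by
    field_simp
  have h3 : (Real.exp x + (Real.exp x)⁻¹) / 2 =
      (Real.exp x * Real.exp x + 1) * (1 / (2 * Real.exp x)) := by
    field_simp
  have h4 : (1 / (2 * Real.exp x)) ≠ 0 := by positivity
  rw [h2, h3, mul_div_mul_right _ _ h4]

theorem tanh_ph (a b : ℝ) : Real.tanh (ph a b) = Real.tanh a * Real.tanh b := by
  have h1 : 0 < Real.cosh (a + b) := Real.cosh_pos _
  have h2 : 0 < Real.cosh (a - b) := Real.cosh_pos _
  have h3 : Real.exp (ph a b) * Real.exp (ph a b) = Real.cosh (a + b) / Real.cosh (a - b) := by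
    rw [← Real.exp_add, ph]
    rw [show Real.log (Real.cosh (a + b) / Real.cosh (a - b)) / 2 +
      Real.log (Real.cosh (a + b) / Real.cosh (a - b)) / 2 =
      Real.log (Real.cosh (a + b) / Real.cosh (a - b)) by ring]
    exact Real.exp_log (div_pos h1 h2)
  rw [tanh_eq, h3]
  have h4 : (Real.cosh (a + b) / Real.cosh (a - b) - 1) /
      (Real.cosh (a + b) / Real.cosh (a - b) + 1) =
      (Real.cosh (a + b) - Real.cosh (a - b)) / (Real.cosh (a + b) + Real.cosh (a - b)) := by
    rw [div_eq_div_iff (by positivity) (by positivity)]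
    field_simp
  rw [h4, Real.cosh_add, Real.cosh_sub, Real.tanh_eq_sinh_div_cosh, Real.tanh_eq_sinh_div_cosh]
  have h5 : 0 < Real.cosh a := Real.cosh_pos _
  have h6 : 0 < Real.cosh b := Real.cosh_pos _
  rw [div_mul_div_comm, div_eq_div_iff (by nlinarith [mul_pos h5 h6]) (by positivity)]
  ring

theorem tanh_add' (x y : ℝ) :
    Real.tanh (x + y) = (Real.tanh x + Real.tanh y) / (1 + Real.tanh x * Real.tanh y) := by
  have h1 : 0 < Real.cosh (x + y) := Real.cosh_pos _
  have h5 : 0 < Real.cosh x := Real.cosh_pos _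
  have h6 : 0 < Real.cosh y := Real.cosh_pos _
  have h7 : Real.tanh x + Real.tanh y = Real.sinh (x + y) * (1 / (Real.cosh x * Real.cosh y)) := by
    rw [Real.sinh_add, Real.tanh_eq_sinh_div_cosh, Real.tanh_eq_sinh_div_cosh]
    field_simp
  have h8 : 1 + Real.tanh x * Real.tanh y =
      Real.cosh (x + y) * (1 / (Real.cosh x * Real.cosh y)) := by
    rw [Real.cosh_add, Real.tanh_eq_sinh_div_cosh, Real.tanh_eq_sinh_div_cosh]
    field_simp
  have h9 : (1 / (Real.cosh x * Real.cosh y)) ≠ 0 := by positivity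
  rw [h7, h8, mul_div_mul_right _ _ h9, Real.tanh_eq_sinh_div_cosh]

theorem alg_ineq (s t : ℝ) (hs : s ^ 2 < 1) (ht : t ^ 2 < 1) :
    ((s + t) / (1 + s * t)) ^ 2 + ((-s + t) / (1 + -s * t)) ^ 2 ≤ 2 * s ^ 2 + 2 * t ^ 2 := by
  have hu : (s * t) ^ 2 < 1 := by
    rw [mul_pow]
    nlinarith [sq_nonneg s, sq_nonneg t]
  obtain ⟨hu1, hu2⟩ := abs_lt.1 ((sq_lt_one_iff_abs_lt_one _).1 hu)
  have h1 : 0 < 1 + s * t := by linarith
  have h2 : 0 < 1 + -s * t := by linarith
  rw [div_pow, div_pow, div_add_div _ _ (by positivity) (by positivity),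
    div_le_iff₀ (by positivity)]
  have hP : s ^ 2 + t ^ 2 ≤ 1 + (s * t) ^ 2 := by nlinarith
  have key : (s ^ 2 + t ^ 2) * (3 - (s * t) ^ 2) ≤ 4 := by
    have h3 : (s ^ 2 + t ^ 2) * (3 - (s * t) ^ 2) ≤ (1 + (s * t) ^ 2) * (3 - (s * t) ^ 2) :=
      mul_le_mul_of_nonneg_right hP (by linarith)
    nlinarith [sq_nonneg (1 - (s * t) ^ 2)]
  have h4 := mul_le_mul_of_nonneg_left key (sq_nonneg (s * t))
  nlinarith [h4]

theorem key_ineq (x y : ℝ) : Real.tanh (x + y) ^ 2 + Real.tanh (-x + y) ^ 2 ≤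
    2 * Real.tanh x ^ 2 + 2 * Real.tanh y ^ 2 := by
  rw [tanh_add' x y, tanh_add' (-x) y, Real.tanh_neg]
  exact alg_ineq _ _ (Real.tanh_sq_lt_one x) (Real.tanh_sq_lt_one y)

/-! ### Measurability and integrability -/

theorem cont_tanh : Continuous Real.tanh := by
  have h : Real.tanh = fun x => Real.sinh x / Real.cosh x := by
    funext x
    exact Real.tanh_eq_sinh_div_cosh x
  rw [h]
  exact Real.continuous_sinh.div Real.continuous_cosh fun x => (Real.cosh_pos x).ne'

theorem meas_ph : Measurable (fun p : ℝ × ℝ => ph p.1 p.2) := by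
  unfold ph
  have h1 : Continuous fun p : ℝ × ℝ => Real.cosh (p.1 + p.2) :=
    Real.continuous_cosh.comp (continuous_fst.add continuous_snd)
  have h2 : Continuous fun p : ℝ × ℝ => Real.cosh (p.1 - p.2) :=
    Real.continuous_cosh.comp (continuous_fst.sub continuous_snd)
  exact ((Real.measurable_log.comp (h1.measurable.div h2.measurable)).div_const 2)

theorem int_t {Ω : Type*} [MeasurableSpace Ω] (π : Measure Ω) [IsProbabilityMeasure π]
    {S : Ω → ℝ} (hS : Measurable S) : Integrable (fun w => Real.tanh (S w) ^ 2) π := by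
  refine Integrable.of_bound (C := 1) ?_ ?_
  · exact ((cont_tanh.measurable.comp hS).pow_const 2).aestronglyMeasurable
  · refine Filter.Eventually.of_forall fun w => ?_
    rw [Real.norm_eq_abs, abs_of_nonneg (sq_nonneg _)]
    exact (Real.tanh_sq_lt_one _).le

/-- The sum of a symmetric variable and an independent one. -/
theorem add_ineq {Ω : Type*} [MeasurableSpace Ω] (π : Measure Ω) [IsProbabilityMeasure π]
    {S : Ω → ℝ} (hS : Measurable S) (κ : Measure ℝ) [IsProbabilityMeasure κ]
    (hκ : κ.map (fun x => -x) = κ) :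
    ∫ p : ℝ × Ω, Real.tanh (p.1 + S p.2) ^ 2 ∂(κ.prod π) ≤
      ∫ x, Real.tanh x ^ 2 ∂κ + ∫ w, Real.tanh (S w) ^ 2 ∂π := by
  have hS2 : Measurable fun p : ℝ × Ω => S p.2 := hS.comp measurable_snd
  have h1 : ∫ p : ℝ × Ω, Real.tanh (p.1 + S p.2) ^ 2 ∂(κ.prod π) =
      ∫ p : ℝ × Ω, Real.tanh (-p.1 + S p.2) ^ 2 ∂(κ.prod π) := by
    have h2 : (κ.prod π).map (Prod.map (fun x : ℝ => -x) id) = κ.prod π := by
      rw [← Measure.map_prod_map _ _ measurable_neg measurable_id, hκ, Measure.map_id]
    have hm : Measurable (Prod.map (fun x : ℝ => -x) (id : Ω → Ω)) :=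
      measurable_neg.prodMap measurable_id
    conv_lhs => rw [← h2]
    rw [integral_map hm.aemeasurable]
    · rfl
    · exact ((cont_tanh.measurable.comp (measurable_fst.add hS2)).pow_const
        2).aestronglyMeasurable
  have i1 : Integrable (fun p : ℝ × Ω => Real.tanh (p.1 + S p.2) ^ 2) (κ.prod π) :=
    int_t _ (measurable_fst.add hS2)
  have i2 : Integrable (fun p : ℝ × Ω => Real.tanh (-p.1 + S p.2) ^ 2) (κ.prod π) :=
    int_t _ (measurable_fst.neg.add hS2)
  have i3 : Integrable (fun p : ℝ × Ω => Real.tanh p.1 ^ 2) (κ.prod π) :=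
    int_t _ measurable_fst
  have i4 : Integrable (fun p : ℝ × Ω => Real.tanh (S p.2) ^ 2) (κ.prod π) :=
    int_t _ hS2
  have h3 : ∫ p : ℝ × Ω, (Real.tanh (p.1 + S p.2) ^ 2 + Real.tanh (-p.1 + S p.2) ^ 2)
      ∂(κ.prod π) ≤ ∫ p : ℝ × Ω, (2 * Real.tanh p.1 ^ 2 + 2 * Real.tanh (S p.2) ^ 2)
      ∂(κ.prod π) :=
    integral_mono (i1.add i2) ((i3.const_mul 2).add (i4.const_mul 2)) fun p => key_ineq _ _
  rw [integral_add i1 i2, integral_add (i3.const_mul 2) (i4.const_mul 2), integral_const_mul,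
    integral_const_mul, ← h1] at h3
  have h5 : ∫ p : ℝ × Ω, Real.tanh p.1 ^ 2 ∂(κ.prod π) = ∫ x, Real.tanh x ^ 2 ∂κ := by
    have := integral_fun_fst (μ := κ) (ν := π) (fun x : ℝ => Real.tanh x ^ 2)
    simpa using this
  have h6 : ∫ p : ℝ × Ω, Real.tanh (S p.2) ^ 2 ∂(κ.prod π) = ∫ w, Real.tanh (S w) ^ 2 ∂π := by
    have := integral_fun_snd (μ := κ) (ν := π) (fun w : Ω => Real.tanh (S w) ^ 2)
    simpa using this
  rw [h5, h6] at h3
  linarith

/-- The sum of `b` independent symmetric variables. -/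
theorem sum_ineq (κ : Measure ℝ) [IsProbabilityMeasure κ] (hκ : κ.map (fun x => -x) = κ) :
    ∀ b : ℕ, ∫ y : Fin b → ℝ, Real.tanh (∑ i, y i) ^ 2 ∂(Measure.pi fun _ : Fin b => κ) ≤
      b * ∫ x, Real.tanh x ^ 2 ∂κ
  | 0 => by simp
  | b + 1 => by
    have ih := sum_ineq κ hκ b
    have hS : Measurable fun y : Fin b → ℝ => ∑ i, y i :=
      Finset.measurable_sum _ fun i _ => measurable_pi_apply i
    have h1 := add_ineq (Measure.pi fun _ : Fin b => κ) hS κ hκ
    have h2 := measurePreserving_piFinSuccAbove (fun _ : Fin (b + 1) => κ) 0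
    have h3 : ∫ p : ℝ × (Fin b → ℝ), Real.tanh (p.1 + ∑ i, p.2 i) ^ 2
        ∂(κ.prod (Measure.pi fun _ : Fin b => κ)) =
        ∫ y : Fin (b + 1) → ℝ, Real.tanh (∑ i, y i) ^ 2
          ∂(Measure.pi fun _ : Fin (b + 1) => κ) := by
      rw [← h2.integral_comp' (fun p : ℝ × (Fin b → ℝ) => Real.tanh (p.1 + ∑ i, p.2 i) ^ 2)]
      refine integral_congr_ae (Filter.Eventually.of_forall fun y => ?_)
      simp only [Fin.sum_univ_succ]
      rfl
    rw [← h3]
    refine h1.trans ?_
    push_cast
    linarith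

/-! ### Branches -/

theorem br_prob (ν : Measure ℝ) [IsProbabilityMeasure ν] : IsProbabilityMeasure (br ν) :=
  Measure.isProbabilityMeasure_map meas_ph.aemeasurable

theorem ph_neg (a b : ℝ) : ph (-a) b = -ph a b := by
  unfold ph
  rw [show -a + b = -(a - b) by ring, show -a - b = -(a + b) by ring, Real.cosh_neg,
    Real.cosh_neg, ← neg_div, ← Real.log_inv, inv_div]

theorem ph_neg' (a b : ℝ) : ph a (-b) = -ph a b := by
  unfold ph
  rw [show a + -b = a - b by ring, show a - -b = a + b by ring, ← neg_div, ← Real.log_inv,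
    inv_div]

theorem br_symm (ν : Measure ℝ) [IsProbabilityMeasure ν] (hν : ν.map (fun x => -x) = ν) :
    (br ν).map (fun x => -x) = br ν := by
  unfold br
  rw [Measure.map_map measurable_neg meas_ph]
  have h2 : (ν.prod ν).map (Prod.map (fun x : ℝ => -x) id) = ν.prod ν := by
    rw [← Measure.map_prod_map _ _ measurable_neg measurable_id, hν, Measure.map_id]
  have hm : Measurable (Prod.map (fun x : ℝ => -x) (id : ℝ → ℝ)) :=
    measurable_neg.prodMap measurable_id
  conv_rhs => rw [← h2]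
  rw [Measure.map_map meas_ph hm]
  congr 1
  funext p
  exact (ph_neg p.1 p.2).symm

theorem br_tanh (ν : Measure ℝ) [IsProbabilityMeasure ν] :
    ∫ x, Real.tanh x ^ 2 ∂(br ν) = (∫ x, Real.tanh x ^ 2 ∂ν) ^ 2 := by
  unfold br
  rw [integral_map meas_ph.aemeasurable
    (cont_tanh.measurable.pow_const 2).aestronglyMeasurable]
  simp only [tanh_ph, mul_pow]
  rw [integral_prod_mul (fun x => Real.tanh x ^ 2) (fun x => Real.tanh x ^ 2), sq]

theorem meas_sum (b : ℕ) : Measurable fun y : Fin b → ℝ => ∑ i, y i :=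
  Finset.measurable_sum _ fun i _ => measurable_pi_apply i

theorem t_T : S_T := by
  intro b ν _ hν
  have := br_prob ν
  unfold lawstep
  rw [integral_map (meas_sum b).aemeasurable
    (cont_tanh.measurable.pow_const 2).aestronglyMeasurable, ← br_tanh ν]
  exact sum_ineq (br ν) (br_symm ν hν) b

/-! ### Two branches -/

theorem int_pm {f : ℝ → ℝ} : ∫ x, f x ∂pm = (f 1 + f (-1)) / 2 := by
  unfold pm
  have h1 : Integrable f ((1 / 2 : ENNReal) • Measure.dirac (1 : ℝ)) :=
    (integrable_dirac (by simp)).smul_measure (by simp)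
  have h2 : Integrable f ((1 / 2 : ENNReal) • Measure.dirac (-1 : ℝ)) :=
    (integrable_dirac (by simp)).smul_measure (by simp)
  rw [integral_add_measure h1 h2, integral_smul_measure, integral_smul_measure, integral_dirac,
    integral_dirac]
  simp
  ring

instance pm_prob : IsProbabilityMeasure pm := by
  refine ⟨?_⟩
  unfold pm
  simp [ENNReal.inv_two_add_inv_two]

theorem t_T1 : S_T1 := by
  intro β
  refine ⟨Real.tanh (2 * ph β β) ^ 2 / 2, by positivity, ?_, ?_⟩
  · have := Real.tanh_sq_lt_one (2 * ph β β)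
    linarith
  · have hβ : Measurable fun x : ℝ => β * x := measurable_const_mul β
    have : IsProbabilityMeasure (pm.map fun x => β * x) :=
      Measure.isProbabilityMeasure_map hβ.aemeasurable
    have := br_prob (pm.map fun x => β * x)
    have hbr : ∀ f : ℝ → ℝ, Measurable f → (∃ C, ∀ x, |f x| ≤ C) →
        ∫ x, f x ∂(br (pm.map fun x => β * x)) = (f (ph β β) + f (-ph β β)) / 2 := by
      intro f hf ⟨C, hC⟩
      have hi : Integrable (fun p : ℝ × ℝ => f (ph p.1 p.2))
          ((pm.map fun x => β * x).prod (pm.map fun x => β * x)) :=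
        Integrable.of_bound (C := C) (hf.comp meas_ph).aestronglyMeasurable
          (Filter.Eventually.of_forall fun p => hC _)
      unfold br
      rw [integral_map meas_ph.aemeasurable hf.aestronglyMeasurable, integral_prod _ hi,
        integral_map hβ.aemeasurable, int_pm]
      · rw [integral_map hβ.aemeasurable, int_pm, integral_map hβ.aemeasurable, int_pm]
        · simp only [mul_one, mul_neg, ph_neg, ph_neg', neg_neg]
          ring
        · exact (hf.comp (meas_ph.comp measurable_prodMk_left)).aestronglyMeasurable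
        · exact (hf.comp (meas_ph.comp measurable_prodMk_left)).aestronglyMeasurable
      · exact (hf.comp meas_ph).stronglyMeasurable.integral_prod_right'.aestronglyMeasurable
    have hT : Measurable fun x => Real.tanh x ^ 2 := cont_tanh.measurable.pow_const 2
    unfold lawstep
    rw [integral_map (meas_sum 2).aemeasurable hT.aestronglyMeasurable]
    have h2 := measurePreserving_finTwoArrow (br (pm.map fun x => β * x))
    have h3 : ∫ y : Fin 2 → ℝ, Real.tanh (∑ i, y i) ^ 2
        ∂(Measure.pi fun _ : Fin 2 => br (pm.map fun x => β * x)) =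
        ∫ p : ℝ × ℝ, Real.tanh (p.1 + p.2) ^ 2
        ∂((br (pm.map fun x => β * x)).prod (br (pm.map fun x => β * x))) := by
      rw [← h2.integral_comp' (fun p : ℝ × ℝ => Real.tanh (p.1 + p.2) ^ 2)]
      refine integral_congr_ae (Filter.Eventually.of_forall fun y => ?_)
      simp only [Fin.sum_univ_two]
      rfl
    have hi2 : Integrable (fun p : ℝ × ℝ => Real.tanh (p.1 + p.2) ^ 2)
        ((br (pm.map fun x => β * x)).prod (br (pm.map fun x => β * x))) :=
      int_t _ (measurable_fst.add measurable_snd)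
    rw [h3, integral_prod _ hi2]
    have hb : ∀ z : ℝ, ∫ y, Real.tanh (z + y) ^ 2 ∂(br (pm.map fun x => β * x)) =
        (Real.tanh (z + ph β β) ^ 2 + Real.tanh (z + -ph β β) ^ 2) / 2 := fun z =>
      hbr (fun y => Real.tanh (z + y) ^ 2)
        ((cont_tanh.measurable.comp (measurable_const_add z)).pow_const 2)
        ⟨1, fun x => by
          rw [abs_of_nonneg (sq_nonneg _)]
          exact (Real.tanh_sq_lt_one _).le⟩
    simp only [hb]
    have hc := hbr (fun z => (Real.tanh (z + ph β β) ^ 2 + Real.tanh (z + -ph β β) ^ 2) / 2)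
      ((((cont_tanh.measurable.comp (measurable_add_const _)).pow_const 2).add
        ((cont_tanh.measurable.comp (measurable_add_const _)).pow_const 2)).div_const 2)
      ⟨1, fun x => by
        rw [abs_of_nonneg (by positivity)]
        have h4 := Real.tanh_sq_lt_one (x + ph β β)
        have h5 := Real.tanh_sq_lt_one (x + -ph β β)
        linarith⟩
    rw [hc]
    apply le_of_eq
    rw [show ph β β + ph β β = 2 * ph β β by ring, show ph β β + -ph β β = 0 by ring,
      show -ph β β + ph β β = 0 by ring, show -ph β β + -ph β β = -(2 * ph β β) by ring,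
      Real.tanh_neg, Real.tanh_zero]
    ring

end Pool.Agent.N322.EA
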