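import Pool.Agent.N661.BH.Stm3
import Pool.Agent.N814.BHASM
import Pool.Agent.Y265.HY.N5

/-!
# FM/FM3: uniform integrability and the limit give convergence of the fourth moments (helper322)
-/

set_option autoImplicit false
set_option maxHeartbeats 400000
open MeasureTheory Filter Topology Complex ProbabilityTheory
open scoped ContDiff

namespace Pool.Agent.N322.FMFM3

open Pool.Agent.W745.RW (lap dx dy TF W)
open Pool.Agent.Y265.RW (int_mulr cutoff)
open Pool.Agent.Y265.HY (FD hyp_fourth)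
open Pool.Agent.N661.BR (MW)
open Pool.Agent.N814.BHASM (Hyp Wt wt exists_wt conv1 mpos)
open Pool.Agent.N814.BHM
open Pool.Agent.N661.BH

noncomputable section

variable {Ω : Set ℂ} {lam : ℕ → ℝ} {u : ℕ → ℂ → ℝ}

lemma TFadd {φ ψ : ℂ → ℝ} (h1 : TF Ω φ) (h2 : TF Ω ψ) : TF Ω (fun z => φ z + ψ z) := by
  refine ⟨h1.1.add h2.1, HasCompactSupport.add h1.2.1 h2.2.1, ?_⟩
  have h3 : Function.support (fun z => φ z + ψ z) ⊆ Function.support φ ∪ Function.support ψ :=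
    Function.support_add φ ψ
  refine (closure_mono h3).trans ?_
  rw [closure_union]
  exact Set.union_subset h1.2.2 h2.2.2

lemma TFmul {φ θ : ℂ → ℝ} (h1 : TF Ω φ) (h2 : ContDiff ℝ ∞ θ) : TF Ω (fun z => θ z * φ z) :=
  Pool.Agent.Y265.RW.TF.mul_smooth h1 h2

lemma TFzero {φ : ℂ → ℝ} (h : TF Ω φ) {z : ℂ} (hz : z ∉ Ω) : φ z = 0 :=
  Pool.Agent.Y265.RW.TF.zero h hz

lemma cont2 (H : Hyp Ω lam u) {g : ℂ → ℝ} (hg : ContinuousOn g Ω) :
    ContinuousOn (fun z => g z / z.im ^ 2) Ω := by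
  refine hg.div ((Complex.continuous_im.pow 2).continuousOn) fun z hz => ?_
  exact pow_ne_zero 2 (H.sub hz : 0 < z.im).ne'

lemma intJ (H : Hyp Ω lam u) {φ : ℂ → ℝ} (hφ : TF Ω φ) {g : ℂ → ℝ} (hg : ContinuousOn g Ω) :
    Integrable (fun z => φ z * g z / z.im ^ 2) := by
  have h := int_mulr H.op hφ (cont2 H hg)
  refine h.congr (Eventually.of_forall fun z => ?_)
  show φ z * (g z / z.im ^ 2) = φ z * g z / z.im ^ 2
  ring

lemma ucont (H : Hyp Ω lam u) (n : ℕ) : ContinuousOn (u n) Ω := (H.sm n).continuousOn.mono H.sub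

lemma intU (H : Hyp Ω lam u) {φ : ℂ → ℝ} (hφ : TF Ω φ) (n : ℕ) :
    Integrable (fun z => φ z * u n z ^ 4 / z.im ^ 2) :=
  intJ H hφ (g := fun z => u n z ^ 4) ((ucont H n).pow 4)

lemma qe' (H : Hyp Ω lam u) : ∀ φ, TF Ω φ → ∀ k : ℕ,
    Tendsto (fun n => ∫ z, ((φ z / z.im ^ 2 : ℝ) : ℂ) *
      ((u n z : ℂ) * (FD (lam n))^[k] (fun w => (u n w : ℂ)) z)) atTop
      (𝓝 (if k = 0 then ((∫ z, φ z / z.im ^ 2 : ℝ) : ℂ) else 0)) := by
  intro φ hφ k
  have e : ∀ g : ℂ → ℂ, area Ω (fun z => (φ z : ℂ) * g z) =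
      ∫ z, ((φ z / z.im ^ 2 : ℝ) : ℂ) * g z := by
    intro g
    unfold area
    rw [setIntegral_eq_integral_of_forall_compl_eq_zero]
    · congr 1
      funext z
      push_cast
      ring
    · intro z hz
      show ((1 / z.im ^ 2 : ℝ) : ℂ) * ((φ z : ℂ) * g z) = 0
      rw [TFzero hφ hz]
      simp
  have h := H.qe φ hφ k
  have e0 : area Ω (fun z => (φ z : ℂ)) = ((∫ z, φ z / z.im ^ 2 : ℝ) : ℂ) := by
    have := e (fun _ => 1)
    simp only [mul_one] at this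
    rw [this, integral_complex_ofReal]
  rw [e0] at h
  refine h.congr fun n => ?_
  rw [e]
  rfl

/-- the lower bound -/
lemma lower (H : Hyp Ω lam u) {φ : ℂ → ℝ} (hφ : TF Ω φ) (hφ0 : ∀ z, 0 ≤ φ z) {ε : ℝ}
    (hε : 0 < ε) : ∀ᶠ n in atTop,
      3 * (∫ z, φ z / z.im ^ 2) - ε ≤ ∫ z, φ z * u n z ^ 4 / z.im ^ 2 := by
  have h := (hyp_fourth H.op (fun z hz => H.sub hz) H.pos H.lim (fun n => (H.sm n).mono H.sub)
    (fun n z hz => H.eq n z (H.sub hz)) (qe' H) hφ).2.2 hφ0 0 0 0 0 ε hε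
  filter_upwards [h] with n hn
  have h1 := (norm_nonneg _).trans hn
  have h2 : ∫ z, φ z / z.im ^ 2 * u n z ^ 4 = ∫ z, φ z * u n z ^ 4 / z.im ^ 2 := by
    congr 1
    funext z
    ring
  rw [h2] at h1
  linarith

/-- the truncation -/
def gM (M x : ℝ) : ℝ := min (x ^ 4) (M ^ 4)

/-- the tail -/
def tM (M x : ℝ) : ℝ := if M < |x| then x ^ 4 else 0

lemma gM_nonneg (M x : ℝ) : 0 ≤ gM M x := le_min (by positivity) (by positivity)

lemma gM_le (M x : ℝ) : gM M x ≤ M ^ 4 := min_le_right _ _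

lemma gM_le' (M x : ℝ) : gM M x ≤ x ^ 4 := min_le_left _ _

lemma gM_cont (M : ℝ) : Continuous (gM M) := (continuous_pow 4).min continuous_const

lemma tM_nonneg (M x : ℝ) : 0 ≤ tM M x := by
  unfold tM
  split_ifs
  · positivity
  · exact le_rfl

lemma tM_le (M x : ℝ) : tM M x ≤ x ^ 4 := by
  unfold tM
  split_ifs
  · exact le_rfl
  · positivity

lemma tM_meas (M : ℝ) : Measurable (tM M) := by
  unfold tM
  exact Measurable.ite (measurableSet_lt measurable_const measurable_norm)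
    (measurable_id.pow_const 4) measurable_const

lemma split (M x : ℝ) : x ^ 4 ≤ gM M x + tM M x := by
  unfold tM
  split_ifs with h
  · have := gM_nonneg M x
    linarith
  · push Not at h
    have h1 : x ^ 4 ≤ M ^ 4 := by
      have h2 : |x| ^ 4 ≤ M ^ 4 := pow_le_pow_left₀ (abs_nonneg x) h 4
      have h3 : |x| ^ 4 = x ^ 4 := by
        rw [← abs_pow]
        exact abs_of_nonneg (by positivity)
      rwa [h3] at h2
    unfold gM
    rw [min_eq_left h1]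
    linarith

lemma int_g (H : Hyp Ω lam u) (M : ℝ) (n : ℕ) :
    IntegrableOn (fun z => gM M (u n z) / z.im ^ 2) Ω := by
  refine Integrable.mono' (H.int.const_mul (M ^ 4)) ?_ ?_
  · exact (cont2 H ((gM_cont M).comp_continuousOn (ucont H n))).aestronglyMeasurable
      H.op.measurableSet
  · refine Eventually.of_forall fun z => ?_
    rw [Real.norm_eq_abs, abs_of_nonneg (div_nonneg (gM_nonneg _ _) (sq_nonneg _))]
    rw [mul_one_div]
    exact div_le_div_of_nonneg_right (gM_le _ _) (sq_nonneg _)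

lemma int_t (H : Hyp Ω lam u) {φ : ℂ → ℝ} (hφ : TF Ω φ) (hφ0 : ∀ z, 0 ≤ φ z) (M : ℝ) (n : ℕ) :
    IntegrableOn (fun z => φ z * tM M (u n z) / z.im ^ 2) Ω := by
  have h1 := (intU H hφ n).integrableOn (s := Ω)
  refine Integrable.mono' h1 ?_ ?_
  · have h2 : AEMeasurable (u n) (volume.restrict Ω) :=
      (ucont H n).aemeasurable H.op.measurableSet
    have h3 : AEMeasurable (fun z => tM M (u n z)) (volume.restrict Ω) :=
      (tM_meas M).comp_aemeasurable h2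
    exact ((hφ.1.continuous.measurable.aemeasurable.mul h3).div
      ((Complex.measurable_im.pow_const 2).aemeasurable)).aestronglyMeasurable
  · refine Eventually.of_forall fun z => ?_
    rw [Real.norm_eq_abs, abs_of_nonneg (div_nonneg (mul_nonneg (hφ0 z) (tM_nonneg _ _))
      (sq_nonneg _))]
    exact div_le_div_of_nonneg_right (mul_le_mul_of_nonneg_left (tM_le _ _) (hφ0 z))
      (sq_nonneg _)

/-- passing to the plane -/
lemma toPlane {φ g : ℂ → ℝ} (hφ : TF Ω φ) :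
    ∫ z in Ω, φ z * g z / z.im ^ 2 = ∫ z, φ z * g z / z.im ^ 2 := by
  rw [setIntegral_eq_integral_of_forall_compl_eq_zero]
  intro z hz
  show φ z * g z / z.im ^ 2 = 0
  rw [TFzero hφ hz]
  simp

/-- the upper bound by the truncation -/
lemma trunc (H : Hyp Ω lam u) {φ : ℂ → ℝ} (hφ : TF Ω φ) (hφ0 : ∀ z, 0 ≤ φ z)
    (hφ1 : ∀ z, φ z ≤ 1) (M : ℝ) (n : ℕ) :
    ∫ z, φ z * u n z ^ 4 / z.im ^ 2 ≤
      (∫ z in Ω, gM M (u n z) / z.im ^ 2) + ∫ z, φ z * tM M (u n z) / z.im ^ 2 := by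
  rw [← toPlane hφ (g := fun z => u n z ^ 4), ← toPlane hφ (g := fun z => tM M (u n z)),
    ← integral_add (int_g H M n) (int_t H hφ hφ0 M n)]
  refine integral_mono (intU H hφ n).integrableOn
    ((int_g H M n).add (int_t H hφ hφ0 M n)) fun z => ?_
  show φ z * u n z ^ 4 / z.im ^ 2 ≤ gM M (u n z) / z.im ^ 2 + φ z * tM M (u n z) / z.im ^ 2
  rw [← add_div]
  refine div_le_div_of_nonneg_right ?_ (sq_nonneg _)
  calc φ z * u n z ^ 4 ≤ φ z * (gM M (u n z) + tM M (u n z)) :=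
        mul_le_mul_of_nonneg_left (split _ _) (hφ0 z)
    _ = φ z * gM M (u n z) + φ z * tM M (u n z) := by ring
    _ ≤ 1 * gM M (u n z) + φ z * tM M (u n z) := by
        have := mul_le_mul_of_nonneg_right (hφ1 z) (gM_nonneg M (u n z))
        linarith
    _ = _ := by ring

/-- the mean of the truncation -/
lemma mean_le {μ : Measure MW} (h3 : ∫⁻ f : MW, ENNReal.ofReal (f 0 ^ 4) ∂μ = 3) (M : ℝ) :
    ∫ f : MW, gM M (f 0) ∂μ ≤ 3 := by
  have h1 := norm_integral_le_lintegral_norm (μ := μ) (fun f : MW => gM M (f 0))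
  have h2 : ∫⁻ f : MW, ENNReal.ofReal ‖gM M (f 0)‖ ∂μ ≤ 3 := by
    rw [← h3]
    refine lintegral_mono fun f => ENNReal.ofReal_le_ofReal ?_
    rw [Real.norm_eq_abs, abs_of_nonneg (gM_nonneg _ _)]
    exact gM_le' _ _
  have h4 : (∫⁻ f : MW, ENNReal.ofReal ‖gM M (f 0)‖ ∂μ).toReal ≤ 3 := by
    have := ENNReal.toReal_mono (by simp) h2
    simpa using this
  exact ((le_abs_self _).trans h1).trans h4

lemma upper (H : Hyp Ω lam u) {μ : Measure MW} (hO : OneLaw Ω u μ) (hU : UnifInt4 Ω u)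
    (h3 : ∫⁻ f : MW, ENNReal.ofReal (f 0 ^ 4) ∂μ = 3) {φ : ℂ → ℝ} (hφ : TF Ω φ)
    (hφ0 : ∀ z, 0 ≤ φ z) (hφ1 : ∀ z, φ z ≤ 1) {ε : ℝ} (hε : 0 < ε) : ∀ᶠ n in atTop,
      ∫ z, φ z * u n z ^ 4 / z.im ^ 2 ≤ 3 * (∫ z, φ z / z.im ^ 2) + 4 * ε := by
  have hA : 0 < mass Ω := mpos H
  -- the large weight
  obtain ⟨ζs, hζs, hlim⟩ := exists_wt H
  have hlim2 : Tendsto (fun i => mass Ω * ∫ z, ζs i z ∂(Pz Ω)) atTop (𝓝 (mass Ω * 1)) :=
    hlim.const_mul _
  rw [mul_one] at hlim2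
  obtain ⟨i, hi⟩ := (hlim2.eventually (lt_mem_nhds (show mass Ω - ε / 3 < mass Ω by linarith))).exists
  have hζ := hζs i
  rw [conv1 H hζ.tf, ← mul_assoc, mul_inv_cancel₀ hA.ne', one_mul] at hi
  set ζ := ζs i with hζdef
  set ψ : ℂ → ℝ := fun z => (1 - φ z) * ζ z with hψ
  have tψ : TF Ω ψ := TFmul hζ.tf (contDiff_const.sub hφ.1)
  have hψ0 : ∀ z, 0 ≤ ψ z := fun z => mul_nonneg (by linarith [hφ1 z]) (hζ.mem z).1
  set φ' : ℂ → ℝ := fun z => φ z + ψ z with hφ'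
  have tφ' : TF Ω φ' := TFadd hφ tψ
  have hφ'0 : ∀ z, 0 ≤ φ' z := fun z => add_nonneg (hφ0 z) (hψ0 z)
  have hφ'1 : ∀ z, φ' z ≤ 1 := by
    intro z
    show φ z + (1 - φ z) * ζ z ≤ 1
    have h1 := hφ1 z
    have h2 := (hζ.mem z).2
    nlinarith
  have hζφ' : ∀ z, ζ z ≤ φ' z := by
    intro z
    show ζ z ≤ φ z + (1 - φ z) * ζ z
    have h1 := hφ0 z
    have h2 := (hζ.mem z).2
    nlinarith
  -- integrals of the weights
  have i1 : ∀ {θ : ℂ → ℝ}, TF Ω θ → Integrable fun z => θ z / z.im ^ 2 := by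
    intro θ hθ
    have := intJ H hθ (g := fun _ => 1) continuousOn_const
    simpa only [mul_one] using this
  have hmass : mass Ω - ε / 3 ≤ ∫ z, φ' z / z.im ^ 2 := by
    refine hi.le.trans ?_
    refine integral_mono ?_ (i1 tφ') fun z => ?_
    · refine (i1 hζ.tf).congr (Eventually.of_forall fun z => ?_)
      show ζ z / z.im ^ 2 = ζ z * (z.im ^ 2)⁻¹
      rw [div_eq_mul_inv]
    · show ζ z * (z.im ^ 2)⁻¹ ≤ φ' z / z.im ^ 2
      rw [← div_eq_mul_inv]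
      exact div_le_div_of_nonneg_right (hζφ' z) (sq_nonneg _)
  have hsum : ∫ z, φ' z / z.im ^ 2 = (∫ z, φ z / z.im ^ 2) + ∫ z, ψ z / z.im ^ 2 := by
    rw [← integral_add (i1 hφ) (i1 tψ)]
    congr 1
    funext z
    show (φ z + ψ z) / z.im ^ 2 = _
    ring
  obtain ⟨M, hM⟩ := hU φ' tφ' hφ'0 ε hε
  have hOM := hO (gM M) (gM_cont M) ⟨M ^ 4, fun x => by
    rw [abs_of_nonneg (gM_nonneg _ _)]; exact gM_le _ _⟩
  have hev := hOM.eventually (gt_mem_nhds
    (show ∫ f : MW, gM M (f 0) ∂μ < (∫ f : MW, gM M (f 0) ∂μ) + ε / mass Ω by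
      have : 0 < ε / mass Ω := by positivity
      linarith))
  filter_upwards [hM, hev, lower H tψ hψ0 hε] with n h1 h2 h4
  have h5 := trunc H tφ' hφ'0 hφ'1 M n
  have h6 : ∫ z in Ω, gM M (u n z) / z.im ^ 2 ≤ 3 * mass Ω + ε := by
    have h7 : (∫ z in Ω, gM M (u n z) / z.im ^ 2) / mass Ω < 3 + ε / mass Ω :=
      h2.trans_le (by linarith [mean_le h3 M])
    rw [div_lt_iff₀ hA, add_mul, div_mul_cancel₀ _ hA.ne'] at h7
    exact h7.le
  have h8 : ∫ z, φ' z * u n z ^ 4 / z.im ^ 2 = (∫ z, φ z * u n z ^ 4 / z.im ^ 2) +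
      ∫ z, ψ z * u n z ^ 4 / z.im ^ 2 := by
    rw [← integral_add (intU H hφ n) (intU H tψ n)]
    congr 1
    funext z
    show (φ z + ψ z) * u n z ^ 4 / z.im ^ 2 = _
    ring
  have h9 : ∫ z, φ' z * tM M (u n z) / z.im ^ 2 ≤ ε := h1
  rw [h8] at h5
  linarith

/-- weights between zero and one -/
lemma unit (H : Hyp Ω lam u) {μ : Measure MW} (hO : OneLaw Ω u μ) (hU : UnifInt4 Ω u)
    (h3 : ∫⁻ f : MW, ENNReal.ofReal (f 0 ^ 4) ∂μ = 3) {φ : ℂ → ℝ} (hφ : TF Ω φ)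
    (hφ0 : ∀ z, 0 ≤ φ z) (hφ1 : ∀ z, φ z ≤ 1) :
    Tendsto (fun n => ∫ z, φ z * u n z ^ 4 / z.im ^ 2) atTop (𝓝 (3 * ∫ z, φ z / z.im ^ 2)) := by
  rw [Metric.tendsto_nhds]
  intro ε hε
  filter_upwards [lower H hφ hφ0 (half_pos hε), upper H hO hU h3 hφ hφ0 hφ1
    (show 0 < ε / 8 by positivity)] with n h1 h2
  rw [Real.dist_eq, abs_lt]
  constructor <;> linarith

theorem FM3 : S_FM3 := by
  intro Ω lam u H μ _ hO hU h3 φ hφ
  obtain ⟨C, hC⟩ : ∃ C : ℝ, ∀ z, |φ z| ≤ C := by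
    obtain ⟨C, hC⟩ := hφ.1.continuous.bounded_above_of_compact_support hφ.2.1
    exact ⟨C, fun z => by simpa using hC z⟩
  set K : ℝ := |C| + 1 with hK
  have hK0 : 0 < K := by positivity
  have hKφ : ∀ z, |φ z| ≤ K := fun z => (hC z).trans (by rw [hK]; linarith [le_abs_self C])
  obtain ⟨ψ, tψ, hψ0, hψ1, hψ2⟩ := cutoff H.op hφ.2.1.isCompact hφ.2.2
  set θ : ℂ → ℝ := fun z => (2 * K)⁻¹ * φ z + (1 / 2) * ψ z with hθ
  have tθ : TF Ω θ := TFadd (TFmul hφ contDiff_const) (TFmul tψ contDiff_const)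
  have hθK : ∀ z, 2 * K * θ z = φ z + K * ψ z := by
    intro z
    show 2 * K * ((2 * K)⁻¹ * φ z + (1 / 2) * ψ z) = _
    field_simp
  have hcase : ∀ z, 0 ≤ φ z + K * ψ z ∧ φ z + K * ψ z ≤ 2 * K := by
    intro z
    by_cases hz : z ∈ tsupport φ
    · rw [hψ2 z hz]
      have := abs_le.1 (hKφ z)
      constructor <;> linarith [this.1, this.2]
    · rw [image_eq_zero_of_notMem_tsupport hz]
      have h1 := hψ0 z
      have h2 := hψ1 z
      constructor
      · positivity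
      · nlinarith
  have hθ0 : ∀ z, 0 ≤ θ z := by
    intro z
    have h1 := (hcase z).1
    rw [← hθK z] at h1
    exact nonneg_of_mul_nonneg_right h1 (by positivity)
  have hθ1 : ∀ z, θ z ≤ 1 := by
    intro z
    have h1 := (hcase z).2
    rw [← hθK z] at h1
    have h2 : 2 * K * θ z ≤ 2 * K * 1 := by linarith
    exact le_of_mul_le_mul_left h2 (by positivity)
  have l1 := unit H hO hU h3 tθ hθ0 hθ1
  have l2 := unit H hO hU h3 tψ hψ0 hψ1
  have l3 := (l1.const_mul (2 * K)).sub (l2.const_mul K)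
  have e : ∀ z, φ z = 2 * K * θ z - K * ψ z := fun z => by rw [hθK z]; ring
  have i1 : ∀ {θ : ℂ → ℝ}, TF Ω θ → Integrable fun z => θ z / z.im ^ 2 := by
    intro θ hθ
    have := intJ H hθ (g := fun _ => 1) continuousOn_const
    simpa only [mul_one] using this
  have e1 : 2 * K * (3 * ∫ z, θ z / z.im ^ 2) - K * (3 * ∫ z, ψ z / z.im ^ 2) =
      3 * ∫ z, φ z / z.im ^ 2 := by
    have h1 : ∫ z, φ z / z.im ^ 2 = 2 * K * (∫ z, θ z / z.im ^ 2) - K * ∫ z, ψ z / z.im ^ 2 := by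
      rw [← integral_const_mul, ← integral_const_mul,
        ← integral_sub ((i1 tθ).const_mul _) ((i1 tψ).const_mul _)]
      congr 1
      funext z
      rw [e z]
      ring
    rw [h1]
    ring
  rw [e1] at l3
  refine l3.congr fun n => ?_
  have j1 := intU H tθ n
  have j2 := intU H tψ n
  rw [← integral_const_mul, ← integral_const_mul, ← integral_sub (j1.const_mul _) (j2.const_mul _)]
  congr 1
  funext z
  rw [e z]
  ring

end

end Pool.Agent.N322.FMFM3
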