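import Pool.Agent.N502.FR.Stm

set_option autoImplicit false

/-!
# Project FR: the scaled power sums are in `[0, 1]`
-/

open Finset

namespace Pool.Agent.N322.FR_MOM

open Pool.Agent.N502.FR

theorem main : Pool.Agent.N502.FR.S_MOM := by
  intro hS hT m j H hm hj hP h1
  obtain ⟨-, -, -, -, -, hR, -, hgt, -⟩ := hT m H hm hP h1
  unfold mom
  generalize rad m (trn m H) = R at hR hgt
  have hR0 : 0 < R := lt_of_lt_of_le (by norm_num) hR
  constructor
  · positivity
  · rw [Finset.mul_sum]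
    have h2 : ∀ h ∈ H \ trn m H, R ^ (2 * j) * (1 / (h : ℝ)) ^ (2 * j + 1) ≤
        R * (1 / (h : ℝ)) ^ 2 := by
      intro h hh
      have h3 := hgt h hh
      have h4 : (0 : ℝ) < h := by linarith
      have h5 : R * (1 / (h : ℝ)) ≤ 1 := by
        rw [mul_one_div, div_le_one h4]
        linarith
      have h6 : 0 ≤ R * (1 / (h : ℝ)) := by positivity
      obtain ⟨k, rfl⟩ : ∃ k, j = k + 1 := ⟨j - 1, by omega⟩
      have h7 : R ^ (2 * (k + 1)) * (1 / (h : ℝ)) ^ (2 * (k + 1) + 1) =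
          (R * (1 / (h : ℝ))) ^ (2 * k + 1) * (R * (1 / (h : ℝ)) ^ 2) := by
        ring
      rw [h7]
      exact mul_le_of_le_one_left (by positivity) (pow_le_one₀ h6 h5)
    have h3 := hS (H \ trn m H) (2 * R) (by linarith) hgt
    calc ∑ h ∈ H \ trn m H, R ^ (2 * j) * (1 / (h : ℝ)) ^ (2 * j + 1)
        ≤ ∑ h ∈ H \ trn m H, R * (1 / (h : ℝ)) ^ 2 := Finset.sum_le_sum h2
      _ = R * ∑ h ∈ H \ trn m H, (1 / (h : ℝ)) ^ 2 := (Finset.mul_sum _ _ _).symm
      _ ≤ R * (2 / (2 * R)) := mul_le_mul_of_nonneg_left h3 hR0.le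
      _ = 1 := by field_simp

end Pool.Agent.N322.FR_MOM
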