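import Mathlib
import Pool.Agent.N604.MW.Stm3

/-!
# Covering of the large values (helper322, project PD)
-/

set_option autoImplicit false
set_option maxHeartbeats 400000

namespace Pool.Agent.N322.PD

open Finset Pool.Agent.N604.MW

/-- integers in a real interval -/
noncomputable def ints (B : ℝ) : Finset ℤ := Finset.Icc (-⌊B⌋) ⌊B⌋

theorem mem_ints {B : ℝ} {n : ℤ} (h : |(n : ℝ)| ≤ B) : n ∈ ints B := by
  unfold ints
  rw [abs_le] at h
  rw [Finset.mem_Icc]
  have h1 : n ≤ ⌊B⌋ := Int.le_floor.2 h.2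
  have h2 : -n ≤ ⌊B⌋ := Int.le_floor.2 (by push_cast; linarith)
  exact ⟨by omega, h1⟩

theorem card_ints {B : ℝ} (h : 0 ≤ B) : ((ints B).card : ℝ) ≤ 2 * B + 1 := by
  unfold ints
  have h0 : 0 ≤ ⌊B⌋ := Int.floor_nonneg.2 h
  rw [Int.card_Icc]
  have h1 : (((⌊B⌋ + 1 - -⌊B⌋).toNat : ℕ) : ℝ) = ((⌊B⌋ + 1 - -⌊B⌋ : ℤ) : ℝ) := by
    have : (((⌊B⌋ + 1 - -⌊B⌋).toNat : ℕ) : ℤ) = ⌊B⌋ + 1 - -⌊B⌋ := Int.toNat_of_nonneg (by omega)
    exact_mod_cast this
  rw [h1]
  push_cast
  have h2 := Int.floor_le B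
  linarith

/-- the rational points -/
noncomputable def JJ (a B Q : ℝ) : Finset ℝ :=
  open Classical in
  (((Finset.Icc 1 ⌊B⌋₊) ×ˢ (ints B)) ×ˢ (ints Q)).image
    fun t : (ℕ × ℤ) × ℤ => (t.2 : ℝ) / (t.1.1 * a) - t.1.2

theorem card_JJ {a B Q : ℝ} (hB : 0 ≤ B) (hQ : 0 ≤ Q) :
    ((JJ a B Q).card : ℝ) ≤ B * (2 * B + 1) * (2 * Q + 1) := by
  classical
  have h1 : (JJ a B Q).card ≤ ⌊B⌋₊ * (ints B).card * (ints Q).card := by
    unfold JJ
    refine Finset.card_image_le.trans ?_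
    rw [Finset.card_product, Finset.card_product, Nat.card_Icc, Nat.add_sub_cancel]
  have h2 : ((JJ a B Q).card : ℝ) ≤ (⌊B⌋₊ : ℝ) * (ints B).card * (ints Q).card := by
    exact_mod_cast h1
  refine h2.trans ?_
  have h3 := Nat.floor_le hB
  have h4 := card_ints hB
  have h5 := card_ints hQ
  gcongr

theorem dcov (h : S_DMAJ) : S_DCOV := by
  intro k a C0 hk ha
  obtain ⟨m1, hm1, hmaj⟩ := h k a C0 hk ha
  refine ⟨6 * m1, by positivity, ?_⟩
  intro σ hσ hσ1
  obtain ⟨X1, hX1⟩ := hmaj σ hσ hσ1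
  have hms : 0 < m1 * σ := by positivity
  have hlim : Filter.Tendsto (fun X : ℕ => (X : ℝ) ^ (m1 * σ)) Filter.atTop Filter.atTop :=
    (tendsto_rpow_atTop hms).comp tendsto_natCast_atTop_atTop
  obtain ⟨X2, hX2⟩ := Filter.eventually_atTop.1 (hlim.eventually_ge_atTop (9 * a + 9 + 1 / a))
  refine ⟨X1 + X2 + 1, ?_⟩
  intro X hX
  have hXpos : (0 : ℝ) < X := by
    have : 0 < X := by omega
    exact_mod_cast this
  have hXone : (1 : ℝ) ≤ X := by
    have : 1 ≤ X := by omega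
    exact_mod_cast this
  set B : ℝ := (X : ℝ) ^ (m1 * σ) with hBdef
  have hBbig : 9 * a + 9 + 1 / a ≤ B := hX2 X (by omega)
  have ha' : 0 < 1 / a := by positivity
  have hB1 : 1 ≤ B := by linarith
  have hB0 : 0 ≤ B := by linarith
  have hpow : (X : ℝ) ^ (6 * m1 * σ) = B ^ 6 := by
    rw [hBdef, ← Real.rpow_natCast, ← Real.rpow_mul hXpos.le]
    congr 1
    push_cast
    ring
  have hpowk : (X : ℝ) ^ (6 * m1 * σ - k) = B ^ 5 * (X : ℝ) ^ (m1 * σ - k) := by
    rw [hBdef, ← Real.rpow_natCast, ← Real.rpow_mul hXpos.le, ← Real.rpow_add hXpos]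
    congr 1
    push_cast
    ring
  by_cases hcase : m1 * σ ≤ k
  · have hle1 : (X : ℝ) ^ (m1 * σ - k) ≤ 1 :=
      Real.rpow_le_one_of_one_le_of_nonpos hXone (by linarith)
    have hxk : 0 < (X : ℝ) ^ (m1 * σ - k) := Real.rpow_pos_of_pos hXpos _
    set Q : ℝ := (3 / 2 * a + 1) * B ^ 2 with hQ
    have hQ0 : 0 ≤ Q := by positivity
    refine ⟨JJ a B Q, ?_, ?_⟩
    · refine (card_JJ hB0 hQ0).trans ?_
      rw [hpow]
      have hB2 : 1 ≤ B ^ 2 := one_le_pow₀ hB1
      have h1 : 2 * B + 1 ≤ 3 * B := by linarith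
      have h2 : 2 * Q + 1 ≤ (3 * a + 3) * B ^ 2 := by
        rw [hQ]
        nlinarith
      calc B * (2 * B + 1) * (2 * Q + 1) ≤ B * (3 * B) * ((3 * a + 3) * B ^ 2) := by gcongr
        _ = (9 * a + 9) * B ^ 4 := by ring
        _ ≤ B * B ^ 4 := by
            refine mul_le_mul_of_nonneg_right ?_ (by positivity)
            linarith
        _ = B ^ 5 * 1 := by ring
        _ ≤ B ^ 5 * B := mul_le_mul_of_nonneg_left hB1 (by positivity)
        _ = B ^ 6 := by ring
    · intro A L hAL β hβ hT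
      obtain ⟨hh, a', q, hq1, hqB, hhB, hdist⟩ := hX1 X A L (by omega) hAL β hβ hT
      have hq1' : (1 : ℝ) ≤ q := by exact_mod_cast hq1
      refine ⟨(a' : ℝ) / (q * a) - hh, ?_, ?_⟩
      · unfold JJ
        rw [Finset.mem_image]
        refine ⟨((q, hh), a'), ?_, rfl⟩
        rw [Finset.mem_product, Finset.mem_product, Finset.mem_Icc]
        refine ⟨⟨⟨hq1, Nat.le_floor hqB⟩, mem_ints hhB⟩, mem_ints ?_⟩
        show |((a' : ℤ) : ℝ)| ≤ Q
        have h1 : |(a' : ℝ)| ≤ |q * (a * (β + hh))| + 1 := by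
          have h2 : |(a' : ℝ)| ≤ |q * (a * (β + hh)) - a'| + |q * (a * (β + hh))| := by
            have h3 := abs_sub_abs_le_abs_sub (a' : ℝ) (q * (a * (β + hh)))
            rw [abs_sub_comm] at h3
            linarith
          linarith
        have h2 : |q * (a * (β + hh))| ≤ B * (a * (1 / 2 + B)) := by
          rw [abs_mul, abs_mul, abs_of_pos ha, abs_of_nonneg (by linarith : (0 : ℝ) ≤ q)]
          have h3 : |β + hh| ≤ 1 / 2 + B := (abs_add_le _ _).trans (by linarith)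
          gcongr
        rw [hQ]
        have hB2 : B ≤ B ^ 2 := by nlinarith
        nlinarith
      · rw [hpowk]
        have hqa : 0 < (q : ℝ) * a := by positivity
        have h1 : β - ((a' : ℝ) / (q * a) - hh) = (q * (a * (β + hh)) - a') / (q * a) := by
          field_simp
          ring
        rw [h1, abs_div, abs_of_pos hqa, div_le_iff₀ hqa]
        refine hdist.trans ?_
        have h2 : 1 ≤ B ^ 5 * (q * a) := by
          have h3 : 1 / a ≤ B := by linarith
          have h4 : 1 ≤ B * a := by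
            rw [div_le_iff₀ ha] at h3
            exact h3
          have h5 : B ≤ B ^ 5 := by
            calc B = B ^ 1 := (pow_one B).symm
              _ ≤ B ^ 5 := pow_le_pow_right₀ hB1 (by norm_num)
          calc (1 : ℝ) ≤ B * a := h4
            _ ≤ B ^ 5 * a := mul_le_mul_of_nonneg_right h5 ha.le
            _ = B ^ 5 * (1 * a) := by ring
            _ ≤ B ^ 5 * (q * a) := by gcongr
        nlinarith
  · push Not at hcase
    refine ⟨{0}, ?_, ?_⟩
    · rw [Finset.card_singleton, hpow]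
      push_cast
      exact one_le_pow₀ hB1
    · intro A L _ β hβ _
      refine ⟨0, Finset.mem_singleton_self 0, ?_⟩
      rw [sub_zero]
      have h1 : (1 : ℝ) ≤ (X : ℝ) ^ (6 * m1 * σ - k) :=
        Real.one_le_rpow hXone (by nlinarith)
      linarith

end Pool.Agent.N322.PD
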