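import Pool.Agent.N795.SX.Stm5
import Pool.Agent.N286.SOkol

/-!
# Project SX (helper795): two points are in one cycle with positive probability

By helper322.
-/

set_option autoImplicit false
set_option linter.unusedSectionVars false

namespace Pool.Agent.N795.SX

open Finset Equiv Filter Topology
open Pool.Agent.TH268.PD (law)
open Pool.Agent.N795.ST (mn mn_mono mn_const mn_nonneg mn_add mn_sub)

namespace N322near

variable {V : Type} [Fintype V] [DecidableEq V]

theorem law_zero (J : V → V → ℝ) (g : Perm V) : law J 0 g = if g = 1 then 1 else 0 := by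
  unfold law
  rw [Pool.Agent.W805.LR.sum_mass, zero_mul, Real.exp_zero, div_one]
  unfold Pool.Agent.W805.LR.stirMass
  rw [tsum_eq_single 0]
  · simp [Pool.Agent.W805.LR.ringSum]
  · intro m hm
    rw [zero_pow hm, zero_div, zero_mul]

theorem mn_zero (J : V → V → ℝ) (F : Perm V → ℝ) : mn J 0 F = F 1 := by
  unfold Pool.Agent.N795.ST.mn
  simp only [law_zero]
  simp

theorem mn_mul (J : V → V → ℝ) (t c : ℝ) (F : Perm V → ℝ) :
    mn J t (fun g => c * F g) = c * mn J t F := by
  unfold Pool.Agent.N795.ST.mn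
  rw [Finset.mul_sum]
  exact Finset.sum_congr rfl fun g _ => by ring

/-- the generator -/
noncomputable def RG (J : V → V → ℝ) (F : Perm V → ℝ) (g : Perm V) : ℝ :=
  ∑ x, ∑ y, J x y / 2 * (F (g * swap x y) - F g)

/-- number of the coincidences of `p, q` with `x, y` -/
noncomputable def wt (x y p q : V) : ℝ :=
  (if p = x then 1 else 0) + (if p = y then 1 else 0) + (if q = x then 1 else 0) +
    (if q = y then 1 else 0)

theorem wt_nonneg (x y p q : V) : 0 ≤ wt x y p q := by
  unfold wt
  split_ifs <;> norm_num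

theorem wt_ge (x y p q : V) (h : p = x ∨ p = y ∨ q = x ∨ q = y) : 1 ≤ wt x y p q := by
  unfold wt
  rcases h with h | h | h | h
  all_goals
    rw [if_pos h]
    split_ifs <;> norm_num

theorem s1 (J : V → V → ℝ) (a : V) :
    ∑ p, ∑ q, J p q / 2 * (if p = a then 1 else 0) = (∑ q, J a q) / 2 := by
  rw [Finset.sum_comm]
  simp [Finset.sum_div]

theorem s2 (J : V → V → ℝ) (a : V) :
    ∑ p, ∑ q, J p q / 2 * (if q = a then 1 else 0) = (∑ p, J p a) / 2 := by
  simp [Finset.sum_div]

theorem s3 (J : V → V → ℝ) (x y : V) :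
    ∑ p, ∑ q, J p q / 2 * (if p = x ∧ q = y then 1 else 0) = J x y / 2 := by
  rw [Finset.sum_eq_single x, Finset.sum_eq_single y]
  · simp
  · intro b _ hb
    rw [if_neg (fun h => hb h.2), mul_zero]
  · intro h
    exact absurd (Finset.mem_univ _) h
  · intro b _ hb
    refine Finset.sum_eq_zero fun q _ => ?_
    rw [if_neg (fun h => hb h.1), mul_zero]
  · intro h
    exact absurd (Finset.mem_univ _) h

theorem wt_sum (J : V → V → ℝ) (S : ℝ) (hsym : ∀ p q, J p q = J q p)
    (hS : ∀ p, ∑ q, J p q ≤ S) (x y : V) : ∑ p, ∑ q, J p q / 2 * wt x y p q ≤ 2 * S := by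
  have h1 : ∑ p, ∑ q, J p q / 2 * wt x y p q =
      (∑ q, J x q) / 2 + (∑ q, J y q) / 2 + (∑ p, J p x) / 2 + (∑ p, J p y) / 2 := by
    rw [← s1 J x, ← s1 J y, ← s2 J x, ← s2 J y]
    unfold wt
    simp only [mul_add, Finset.sum_add_distrib]
  have h2 : ∀ a, ∑ p, J p a = ∑ q, J a q := fun a => Finset.sum_congr rfl fun p _ => hsym p a
  rw [h1, h2, h2]
  linarith [hS x, hS y]

/-- both points are fixed -/
noncomputable def fh (x y : V) (g : Perm V) : ℝ := if g x = x ∧ g y = y then 1 else 0

/-- the points are exchanged -/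
noncomputable def ff (x y : V) (g : Perm V) : ℝ := if g x = y ∧ g y = x then 1 else 0

theorem fh_nonneg (x y : V) (g : Perm V) : 0 ≤ fh x y g := by
  unfold fh
  split_ifs <;> norm_num

theorem ff_nonneg (x y : V) (g : Perm V) : 0 ≤ ff x y g := by
  unfold ff
  split_ifs <;> norm_num

theorem app_of_ne (g : Perm V) (x p q : V) (hp : p ≠ x) (hq : q ≠ x) : (g * swap p q) x = g x := by
  rw [Perm.mul_apply, swap_apply_of_ne_of_ne (Ne.symm hp) (Ne.symm hq)]

theorem fh_step (x y p q : V) (g : Perm V) :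
    - (fh x y g * wt x y p q) ≤ fh x y (g * swap p q) - fh x y g := by
  by_cases h : p = x ∨ p = y ∨ q = x ∨ q = y
  · have h1 := wt_ge x y p q h
    have h2 := fh_nonneg x y g
    have h3 := fh_nonneg x y (g * swap p q)
    nlinarith
  · push Not at h
    obtain ⟨h1, h2, h3, h4⟩ := h
    have h5 : fh x y (g * swap p q) = fh x y g := by
      unfold fh
      rw [app_of_ne g x p q h1 h3, app_of_ne g y p q h2 h4]
    have h6 := mul_nonneg (fh_nonneg x y g) (wt_nonneg x y p q)
    rw [h5]
    linarith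

theorem ff_step (x y p q : V) (hxy : x ≠ y) (g : Perm V) :
    fh x y g * ((if p = x ∧ q = y then 1 else 0) + (if p = y ∧ q = x then 1 else 0)) -
      ff x y g * wt x y p q ≤ ff x y (g * swap p q) - ff x y g := by
  have hf := ff_nonneg x y g
  have hw := wt_nonneg x y p q
  by_cases h : p = x ∨ p = y ∨ q = x ∨ q = y
  · have h1 := wt_ge x y p q h
    by_cases ha : p = x ∧ q = y
    · obtain ⟨rfl, rfl⟩ := ha
      have h2 : ff p q (g * swap p q) = fh p q g := by
        unfold ff fh
        rw [Perm.mul_apply, Perm.mul_apply, swap_apply_left, swap_apply_right]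
        simp only [and_comm]
      rw [if_pos ⟨rfl, rfl⟩, if_neg (fun h => hxy h.1), h2]
      nlinarith
    · by_cases hb : p = y ∧ q = x
      · obtain ⟨rfl, rfl⟩ := hb
        have h2 : ff q p (g * swap p q) = fh q p g := by
          unfold ff fh
          rw [Perm.mul_apply, Perm.mul_apply, swap_apply_left, swap_apply_right]
          simp only [and_comm]
        rw [if_neg (fun h => hxy h.1.symm), if_pos ⟨rfl, rfl⟩, h2]
        nlinarith
      · rw [if_neg ha, if_neg hb]
        have h3 := ff_nonneg x y (g * swap p q)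
        nlinarith
  · push Not at h
    obtain ⟨h1, h2, h3, h4⟩ := h
    have h5 : ff x y (g * swap p q) = ff x y g := by
      unfold ff
      rw [app_of_ne g x p q h1 h3, app_of_ne g y p q h2 h4]
    rw [if_neg (fun h => h1 h.1), if_neg (fun h => h2 h.1), h5]
    have h6 := mul_nonneg hf hw
    linarith

theorem fh_gen (J : V → V → ℝ) (S : ℝ) (h0 : ∀ p q, 0 ≤ J p q) (hsym : ∀ p q, J p q = J q p)
    (hS : ∀ p, ∑ q, J p q ≤ S) (x y : V) (g : Perm V) :
    - (2 * S) * fh x y g ≤ RG J (fh x y) g := by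
  have h1 : ∑ p, ∑ q, J p q / 2 * (- (fh x y g * wt x y p q)) ≤ RG J (fh x y) g := by
    unfold RG
    refine Finset.sum_le_sum fun p _ => Finset.sum_le_sum fun q _ => ?_
    exact mul_le_mul_of_nonneg_left (fh_step x y p q g) (by have := h0 p q; positivity)
  have h2 : ∑ p, ∑ q, J p q / 2 * (- (fh x y g * wt x y p q)) =
      - (fh x y g * ∑ p, ∑ q, J p q / 2 * wt x y p q) := by
    rw [Finset.mul_sum, ← Finset.sum_neg_distrib]
    refine Finset.sum_congr rfl fun p _ => ?_
    rw [Finset.mul_sum, ← Finset.sum_neg_distrib]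
    exact Finset.sum_congr rfl fun q _ => by ring
  have h3 := mul_le_mul_of_nonneg_left (wt_sum J S hsym hS x y) (fh_nonneg x y g)
  rw [h2] at h1
  linarith

theorem ff_gen (J : V → V → ℝ) (S : ℝ) (h0 : ∀ p q, 0 ≤ J p q) (hsym : ∀ p q, J p q = J q p)
    (hS : ∀ p, ∑ q, J p q ≤ S) (x y : V) (hxy : x ≠ y) (g : Perm V) :
    J x y * fh x y g + - (2 * S) * ff x y g ≤ RG J (ff x y) g := by
  have h1 : ∑ p, ∑ q, J p q / 2 *
      (fh x y g * ((if p = x ∧ q = y then 1 else 0) + (if p = y ∧ q = x then 1 else 0)) -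
      ff x y g * wt x y p q) ≤ RG J (ff x y) g := by
    unfold RG
    refine Finset.sum_le_sum fun p _ => Finset.sum_le_sum fun q _ => ?_
    exact mul_le_mul_of_nonneg_left (ff_step x y p q hxy g) (by have := h0 p q; positivity)
  have h2 : ∑ p, ∑ q, J p q / 2 *
      (fh x y g * ((if p = x ∧ q = y then 1 else 0) + (if p = y ∧ q = x then 1 else 0)) -
      ff x y g * wt x y p q) =
      fh x y g * (J x y / 2 + J y x / 2) - ff x y g * ∑ p, ∑ q, J p q / 2 * wt x y p q := by
    rw [← s3 J x y, ← s3 J y x, ← Finset.sum_add_distrib, Finset.mul_sum, Finset.mul_sum,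
      ← Finset.sum_sub_distrib]
    refine Finset.sum_congr rfl fun p _ => ?_
    rw [← Finset.sum_add_distrib, Finset.mul_sum, Finset.mul_sum, ← Finset.sum_sub_distrib]
    exact Finset.sum_congr rfl fun q _ => by ring
  have h3 := mul_le_mul_of_nonneg_left (wt_sum J S hsym hS x y) (ff_nonneg x y g)
  rw [h2, hsym y x] at h1
  linarith

/-- a function with nonnegative derivative -/
theorem mono0 (φ φ' : ℝ → ℝ) (hd : ∀ s, HasDerivAt φ (φ' s) s) (h0 : ∀ s, 0 ≤ s → 0 ≤ φ' s)
    (t : ℝ) (ht : 0 ≤ t) : φ 0 ≤ φ t := by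
  have hm : MonotoneOn φ (Set.Ici 0) := by
    refine monotoneOn_of_deriv_nonneg (convex_Ici 0) ?_ ?_ ?_
    · exact fun s _ => (hd s).continuousAt.continuousWithinAt
    · exact fun s _ => (hd s).differentiableAt.differentiableWithinAt
    · intro s hs
      rw [interior_Ici] at hs
      rw [(hd s).deriv]
      exact h0 s (le_of_lt hs)
  exact hm Set.self_mem_Ici ht ht

theorem exp_deriv (c s : ℝ) : HasDerivAt (fun u => Real.exp (c * u)) (Real.exp (c * s) * c) s := by
  have h1 : HasDerivAt (fun u : ℝ => c * u) c s := by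
    simpa using (hasDerivAt_id s).const_mul c
  exact h1.exp

theorem fh_low (J : V → V → ℝ) (S : ℝ) (h0 : ∀ p q, 0 ≤ J p q) (hsym : ∀ p q, J p q = J q p)
    (hS : ∀ p, ∑ q, J p q ≤ S) (x y : V) (t : ℝ) (ht : 0 ≤ t) :
    1 ≤ mn J t (fh x y) * Real.exp (2 * S * t) := by
  have hd : ∀ s, HasDerivAt (fun u => mn J u (fh x y) * Real.exp (2 * S * u))
      (mn J s (RG J (fh x y)) * Real.exp (2 * S * s) +
        mn J s (fh x y) * (Real.exp (2 * S * s) * (2 * S))) s := fun s =>
    (Pool.Agent.N795.SO.kol V J s (fh x y)).mul (exp_deriv (2 * S) s)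
  have h1 := mono0 _ _ hd (by
    intro s hs
    have h2 : mn J s (fun g => - (2 * S) * fh x y g) ≤ mn J s (RG J (fh x y)) :=
      mn_mono h0 hs fun g => fh_gen J S h0 hsym hS x y g
    rw [mn_mul] at h2
    have h3 := Real.exp_pos (2 * S * s)
    nlinarith) t ht
  have h4 : mn J 0 (fh x y) = 1 := by
    rw [mn_zero]
    simp [fh]
  beta_reduce at h1
  rw [h4, mul_zero, Real.exp_zero, one_mul] at h1
  exact h1

theorem ff_low (J : V → V → ℝ) (S : ℝ) (h0 : ∀ p q, 0 ≤ J p q) (hsym : ∀ p q, J p q = J q p)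
    (hS : ∀ p, ∑ q, J p q ≤ S) (x y : V) (hxy : x ≠ y) (t : ℝ) (ht : 0 ≤ t) :
    t * J x y ≤ mn J t (ff x y) * Real.exp (2 * S * t) := by
  have hd : ∀ s, HasDerivAt (fun u => mn J u (ff x y) * Real.exp (2 * S * u) - u * J x y)
      (mn J s (RG J (ff x y)) * Real.exp (2 * S * s) +
        mn J s (ff x y) * (Real.exp (2 * S * s) * (2 * S)) - 1 * J x y) s := fun s =>
    ((Pool.Agent.N795.SO.kol V J s (ff x y)).mul (exp_deriv (2 * S) s)).sub
      ((hasDerivAt_id s).mul_const (J x y))
  have h1 := mono0 _ _ hd (by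
    intro s hs
    have h2 : mn J s (fun g => J x y * fh x y g + - (2 * S) * ff x y g) ≤
        mn J s (RG J (ff x y)) :=
      mn_mono h0 hs fun g => ff_gen J S h0 hsym hS x y hxy g
    rw [mn_add, mn_mul, mn_mul] at h2
    have h3 := Real.exp_pos (2 * S * s)
    have h5 := fh_low J S h0 hsym hS x y s hs
    have h6 := mul_le_mul_of_nonneg_right h2 h3.le
    have h7 := mul_le_mul_of_nonneg_left h5 (h0 x y)
    nlinarith) t ht
  have h4 : mn J 0 (ff x y) = 0 := by
    rw [mn_zero]
    simp [ff, hxy]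
  beta_reduce at h1
  rw [h4, zero_mul, zero_mul, sub_zero] at h1
  linarith

end N322near

open N322near

/-- two points are in one cycle with positive probability -/
theorem near : Near := by
  intro V _ _ J t S x y h0 hsym hS ht hxy
  have h1 := N322near.ff_low J S h0 hsym hS x y hxy t ht
  have h2 : t * J x y * Real.exp (-(2 * S * t)) ≤ mn J t (N322near.ff x y) := by
    rw [Real.exp_neg, ← div_eq_mul_inv, div_le_iff₀ (Real.exp_pos _)]
    exact h1
  refine h2.trans (mn_mono h0 ht fun g => ?_)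
  unfold N322near.ff
  split_ifs with h3 h4 h4
  · exact le_refl 1
  · exact absurd ⟨1, by simpa using h3.1⟩ h4
  · exact zero_le_one
  · exact le_refl 0

end Pool.Agent.N795.SX
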