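import Mathlib
import Pool.Agent.N502.TM.Stm

/-!
# Project TM (helper502), part CMB: central binomial coefficients
-/

set_option autoImplicit false

namespace Pool.Agent.N322.TM_CMB

open Pool.Agent.N502.TM

theorem uu_zero : uu 0 = 1 := by simp [uu]

theorem uu_succ (k : ℕ) : uu (k + 1) = uu k * ((2 * k + 1) / (2 * k + 2)) := by
  unfold uu
  have h := Nat.succ_mul_centralBinom_succ k
  have h' : ((k : ℝ) + 1) * (Nat.centralBinom (k + 1) : ℝ) =
      2 * (2 * k + 1) * (Nat.centralBinom k : ℝ) := by exact_mod_cast h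
  rw [pow_succ]
  have h4 : (4 : ℝ) ^ k ≠ 0 := by positivity
  have hk : (2 * (k : ℝ) + 2) ≠ 0 := by positivity
  field_simp
  linarith

theorem uu_pos (k : ℕ) : 0 < uu k := by
  unfold uu
  have := Nat.centralBinom_pos k
  positivity

theorem uu_le_one (k : ℕ) : uu k ≤ 1 := by
  induction k with
  | zero => rw [uu_zero]
  | succ k ih =>
    rw [uu_succ]
    have h1 : (2 * (k : ℝ) + 1) / (2 * k + 2) ≤ 1 := by
      rw [div_le_one (by positivity)]
      linarith
    exact mul_le_one₀ ih (by positivity) h1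

theorem et_succ (k : ℕ) : et (k + 1) = uu k / (2 * k + 2) := by
  unfold et
  rw [uu_succ]
  push_cast
  have h1 : (2 * ((k : ℝ) + 1) - 1) ≠ 0 := by
    have : (0 : ℝ) ≤ k := Nat.cast_nonneg k
    intro h
    linarith
  have h2 : (2 * (k : ℝ) + 2) ≠ 0 := by positivity
  field_simp
  ring

theorem tele (k m : ℕ) (hm : m ≤ k + 1) :
    ∑ j ∈ Finset.range m, et (j + 1) * uu (k - j) =
      uu (k + 1) - uu m * uu (k + 1 - m) * ((k + 1 - m : ℕ) : ℝ) / (k + 1) := by
  induction m with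
  | zero =>
    have h1 : ((k : ℝ) + 1) ≠ 0 := by positivity
    rw [Finset.sum_range_zero, uu_zero]
    simp only [Nat.sub_zero]
    push_cast
    field_simp
    ring
  | succ m ih =>
    rw [Finset.sum_range_succ, ih (by omega)]
    obtain ⟨i, rfl⟩ := Nat.exists_eq_add_of_le (show m ≤ k by omega)
    have e1 : m + i + 1 - m = i + 1 := by omega
    have e2 : m + i - m = i := by omega
    have e3 : m + i + 1 - (m + 1) = i := by omega
    rw [e1, e2, e3, et_succ, uu_succ m, uu_succ i]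
    push_cast
    have h1 : ((m : ℝ) + i + 1) ≠ 0 := by positivity
    have h2 : (2 * (m : ℝ) + 2) ≠ 0 := by positivity
    have h3 : (2 * (i : ℝ) + 2) ≠ 0 := by positivity
    field_simp
    ring

theorem sum_uu (k : ℕ) : ∑ j ∈ Finset.range (k + 1), uu j = (2 * k + 1) * uu k := by
  induction k with
  | zero => simp [uu_zero]
  | succ k ih =>
    rw [Finset.sum_range_succ, ih, uu_succ]
    push_cast
    have h2 : (2 * (k : ℝ) + 2) ≠ 0 := by positivity
    field_simp

theorem mono_a : Monotone fun k : ℕ => uu k * √(k : ℝ) := by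
  refine monotone_nat_of_le_succ fun k => ?_
  have h0 := (uu_pos k).le
  have h1 : √(k : ℝ) ≤ (2 * k + 1) / (2 * k + 2) * √((k + 1 : ℕ) : ℝ) := by
    rw [← Real.sqrt_sq (show (0 : ℝ) ≤ (2 * k + 1) / (2 * k + 2) by positivity),
      ← Real.sqrt_mul (sq_nonneg _)]
    apply Real.sqrt_le_sqrt
    push_cast
    rw [div_pow, div_mul_eq_mul_div, le_div_iff₀ (by positivity)]
    have : (0 : ℝ) ≤ k := Nat.cast_nonneg k
    nlinarith [mul_nonneg this this, mul_nonneg (mul_nonneg this this) this]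
  calc uu k * √(k : ℝ) ≤ uu k * ((2 * k + 1) / (2 * k + 2) * √((k + 1 : ℕ) : ℝ)) :=
        mul_le_mul_of_nonneg_left h1 h0
    _ = uu (k + 1) * √((k + 1 : ℕ) : ℝ) := by rw [uu_succ]; ring

theorem anti_b : Antitone fun k : ℕ => uu k * √((k : ℝ) + 1 / 2) := by
  refine antitone_nat_of_succ_le fun k => ?_
  have h0 := (uu_pos k).le
  have h1 : (2 * (k : ℝ) + 1) / (2 * k + 2) * √(((k + 1 : ℕ) : ℝ) + 1 / 2) ≤
      √((k : ℝ) + 1 / 2) := by
    rw [← Real.sqrt_sq (show (0 : ℝ) ≤ (2 * k + 1) / (2 * k + 2) by positivity),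
      ← Real.sqrt_mul (sq_nonneg _)]
    apply Real.sqrt_le_sqrt
    push_cast
    rw [div_pow, div_mul_eq_mul_div, div_le_iff₀ (by positivity)]
    have : (0 : ℝ) ≤ k := Nat.cast_nonneg k
    nlinarith [mul_nonneg this this, mul_nonneg (mul_nonneg this this) this]
  calc uu (k + 1) * √(((k + 1 : ℕ) : ℝ) + 1 / 2)
      = uu k * ((2 * k + 1) / (2 * k + 2) * √(((k + 1 : ℕ) : ℝ) + 1 / 2)) := by
        rw [uu_succ]; ring
    _ ≤ uu k * √((k : ℝ) + 1 / 2) := mul_le_mul_of_nonneg_left h1 h0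

theorem a_le_b (k m : ℕ) : uu k * √(k : ℝ) ≤ uu m * √((m : ℝ) + 1 / 2) := by
  have h1 : uu k * √(k : ℝ) ≤ uu (max k m) * √((max k m : ℕ) : ℝ) := mono_a (le_max_left k m)
  have h2 : uu (max k m) * √(((max k m : ℕ) : ℝ) + 1 / 2) ≤ uu m * √((m : ℝ) + 1 / 2) :=
    anti_b (le_max_right k m)
  have h3 : uu (max k m) * √((max k m : ℕ) : ℝ) ≤
      uu (max k m) * √(((max k m : ℕ) : ℝ) + 1 / 2) :=
    mul_le_mul_of_nonneg_left (Real.sqrt_le_sqrt (by linarith)) (uu_pos _).le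
  exact h1.trans (h3.trans h2)

theorem exists_l : ∃ l : ℝ, IsL l := by
  have hbdd : BddAbove (Set.range fun k : ℕ => uu k * √(k : ℝ)) :=
    ⟨uu 0 * √(((0 : ℕ) : ℝ) + 1 / 2), by
      rintro _ ⟨k, rfl⟩
      exact a_le_b k 0⟩
  have hup : ∀ k : ℕ, uu k * √(k : ℝ) ≤ sSup (Set.range fun k : ℕ => uu k * √(k : ℝ)) :=
    fun k => le_csSup hbdd ⟨k, rfl⟩
  have hlow : ∀ m : ℕ, sSup (Set.range fun k : ℕ => uu k * √(k : ℝ)) ≤
      uu m * √((m : ℝ) + 1 / 2) := by
    intro m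
    refine csSup_le ⟨_, 0, rfl⟩ ?_
    rintro _ ⟨k, rfl⟩
    exact a_le_b k m
  refine ⟨sSup (Set.range fun k : ℕ => uu k * √(k : ℝ)), ?_, fun k hk => ?_, fun k => ?_⟩
  · have h1 := hup 1
    have h2 : 0 < uu 1 * √((1 : ℕ) : ℝ) := by
      have := uu_pos 1
      positivity
    exact lt_of_lt_of_le h2 h1
  · have hk0 : (0 : ℝ) < k := by exact_mod_cast hk
    rw [le_div_iff₀ (Real.sqrt_pos.2 hk0)]
    exact hup k
  · rw [sum_uu]
    have h1 := hlow k
    have h2 : (0 : ℝ) ≤ (k : ℝ) + 1 / 2 := by positivity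
    calc 2 * sSup (Set.range fun k : ℕ => uu k * √(k : ℝ)) * √((k : ℝ) + 1 / 2)
        ≤ 2 * (uu k * √((k : ℝ) + 1 / 2)) * √((k : ℝ) + 1 / 2) := by
          refine mul_le_mul_of_nonneg_right ?_ (Real.sqrt_nonneg _)
          linarith
      _ = 2 * uu k * (√((k : ℝ) + 1 / 2) * √((k : ℝ) + 1 / 2)) := by ring
      _ = (2 * k + 1) * uu k := by
          rw [Real.mul_self_sqrt h2]
          ring

theorem main : Pool.Agent.N502.TM.S_CMB where
  et_nonneg k := by
    rw [et_succ]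
    have := uu_pos k
    positivity
  et_le k := by
    rw [et_succ, div_le_one (by positivity)]
    have h1 := uu_le_one k
    have : (0 : ℝ) ≤ k := Nat.cast_nonneg k
    linarith
  uu_nonneg k := (uu_pos k).le
  uu_le := uu_le_one
  rcr k := by
    rw [tele k (k + 1) le_rfl]
    simp
  exl := exists_l

end Pool.Agent.N322.TM_CMB
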